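import Pool.Agent.Helper24.FR.Asym2

set_option autoImplicit false

namespace Pool.Agent.Results.MP_120218_co.LogTradeoff

open Finset

/-- **Logarithmic growth of sums or products: the exact trade-off between the two rates.**

Let `s, p > 0` be reals and `G = (s + p) H(s / (s + p))`, where `H` is the binary entropy function
(natural logarithms), i.e. `G = s log ((s + p) / s) + p log ((s + p) / p)`.

(1) If `G < 1`, there are `k₀` and `C > 0` such that every finite nonempty set `A` of integers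
satisfies `|hA| ≥ exp(- C h (log h)^3) |A|^(s log h)` for all `h ≥ k₀`, or
`|A^k| ≥ (|A| / 4)^(p log k)` for all `k ≥ k₀`.

(2) If `G > 1`, there are `k₀` and `N₀` such that for every `N ≥ N₀` some set `A` of `N` positive
integers satisfies `|hA| ≤ h N^(s log log N)` for all `h ≥ 1` and `|A^k| ≤ N^(p log k)` for all
`k ≥ k₀`. -/
theorem result :
    (∀ s p : ℝ, 0 < s → 0 < p → (s + p) * Real.binEntropy (s / (s + p)) < 1 →
      ∃ (k₀ : ℕ) (C : ℝ), 0 < C ∧ ∀ A : Finset ℤ, A.Nonempty →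
        (∀ h : ℕ, k₀ ≤ h → Real.exp (-(C * (h * Real.log h ^ 3))) *
          (A.card : ℝ) ^ (s * Real.log h) ≤
          (((Fintype.piFinset (fun _ : Fin h => A)).image
            (fun f : Fin h → ℤ => ∑ i, f i)).card : ℝ)) ∨
        (∀ k : ℕ, k₀ ≤ k → ((A.card : ℝ) / 4) ^ (p * Real.log k) ≤
          (((Fintype.piFinset (fun _ : Fin k => A)).image
            (fun f : Fin k → ℤ => ∏ i, f i)).card : ℝ))) ∧
    (∀ s p : ℝ, 0 < s → 0 < p → 1 < (s + p) * Real.binEntropy (s / (s + p)) →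
      ∃ k₀ N₀ : ℕ, ∀ N : ℕ, N₀ ≤ N → ∃ A : Finset ℤ, A.card = N ∧ (∀ a ∈ A, 0 < a) ∧
        (∀ h : ℕ, 1 ≤ h →
          (((Fintype.piFinset (fun _ : Fin h => A)).image
            (fun f : Fin h → ℤ => ∑ i, f i)).card : ℝ) ≤
            h * (N : ℝ) ^ (s * Real.log (Real.log N))) ∧
        (∀ k : ℕ, k₀ ≤ k →
          (((Fintype.piFinset (fun _ : Fin k => A)).image
            (fun f : Fin k → ℤ => ∏ i, f i)).card : ℝ) ≤
            (N : ℝ) ^ (p * Real.log k))) :=
  ⟨fun s p hs hp hsp => Pool.Agent.Helper24.ES.topB_explicit s p hs hp hsp,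
    fun s p hs hp hsp => Pool.Agent.Helper24.FR.frontier_strong s p hs hp hsp⟩

/-- The balanced case: for every `c < 1 / 2` and all large `k`,
`max(|kA|, |A^k|) ≥ C(k) |A|^(c log_2 k)` for every `A`. -/
theorem balanced (c : ℝ) (hc0 : 0 < c) (hc : c < 1 / 2) :
    ∃ (k₀ : ℕ) (C : ℕ → ℝ), (∀ k, 0 < C k) ∧ ∀ k : ℕ, k₀ ≤ k → ∀ A : Finset ℤ, A.Nonempty →
      C k * (A.card : ℝ) ^ (c * Real.logb 2 k) ≤
        max (((Fintype.piFinset (fun _ : Fin k => A)).image
          (fun f : Fin k → ℤ => ∑ i, f i)).card : ℝ)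
          (((Fintype.piFinset (fun _ : Fin k => A)).image
          (fun f : Fin k → ℤ => ∏ i, f i)).card : ℝ) := by
  have hl : 0 < Real.log 2 := Real.log_pos (by norm_num)
  have hs : 0 < c / Real.log 2 := by positivity
  have hsp : (c / Real.log 2 + c / Real.log 2) *
      Real.binEntropy (c / Real.log 2 / (c / Real.log 2 + c / Real.log 2)) < 1 := by
    have h1 : c / Real.log 2 / (c / Real.log 2 + c / Real.log 2) = 2⁻¹ := by
      field_simp
      ring
    rw [h1, Real.binEntropy_two_inv]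
    have h2 : (c / Real.log 2 + c / Real.log 2) * Real.log 2 = 2 * c := by
      field_simp
      ring
    rw [h2]
    linarith
  obtain ⟨k₀, C, hC, h⟩ := result.1 _ _ hs hs hsp
  refine ⟨k₀, fun k => min (Real.exp (-(C * (k * Real.log k ^ 3))))
    ((1 / 4 : ℝ) ^ (c * Real.logb 2 k)), fun k => lt_min (Real.exp_pos _) (by positivity), ?_⟩
  intro k hk A hA
  have hA0 : (0 : ℝ) < A.card := by exact_mod_cast card_pos.2 hA
  have he : c / Real.log 2 * Real.log k = c * Real.logb 2 k := by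
    rw [Real.logb]
    ring
  have hpos : (0 : ℝ) ≤ (A.card : ℝ) ^ (c * Real.logb 2 k) := by positivity
  rcases h A hA with h1 | h1
  · have h2 := h1 k hk
    rw [he] at h2
    refine le_trans (le_trans ?_ h2) (le_max_left _ _)
    exact mul_le_mul_of_nonneg_right (min_le_left _ _) hpos
  · have h2 := h1 k hk
    rw [he] at h2
    refine le_trans (le_trans ?_ h2) (le_max_right _ _)
    have h3 : ((A.card : ℝ) / 4) ^ (c * Real.logb 2 k) =
        (1 / 4 : ℝ) ^ (c * Real.logb 2 k) * (A.card : ℝ) ^ (c * Real.logb 2 k) := by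
      rw [← Real.mul_rpow (by norm_num) hA0.le]
      congr 1
      ring
    rw [h3]
    exact mul_le_mul_of_nonneg_right (min_le_right _ _) hpos

/-- For `c ≥ 1` and `h = (log N)^(c + o(1))` the least value of `max(|hA|, |A^h|)` over all `A`
with `|A| = N` is `N^((P + o(1)) log h)` with `P = 1 / (log(1 + c) + c log(1 + 1 / c))`. -/
theorem power_range (c : ℝ) (hc : 1 ≤ c) (ε : ℝ) (hε : 0 < ε) :
    ∃ δ : ℝ, 0 < δ ∧ ∃ N₀ : ℕ, ∀ N : ℕ, N₀ ≤ N → ∀ h : ℕ,
      (Real.log N) ^ (c - δ) ≤ h → (h : ℝ) ≤ (Real.log N) ^ (c + δ) →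
      (∀ A : Finset ℤ, A.card = N →
        (N : ℝ) ^ ((1 / (Real.log (1 + c) + c * Real.log (1 + 1 / c)) - ε) * Real.log h) ≤
        max (((Fintype.piFinset (fun _ : Fin h => A)).image
          (fun f : Fin h → ℤ => ∑ i, f i)).card : ℝ)
          (((Fintype.piFinset (fun _ : Fin h => A)).image
          (fun f : Fin h → ℤ => ∏ i, f i)).card : ℝ)) ∧
      (∃ A : Finset ℤ, A.card = N ∧ (∀ a ∈ A, 0 < a) ∧
        max (((Fintype.piFinset (fun _ : Fin h => A)).image
          (fun f : Fin h → ℤ => ∑ i, f i)).card : ℝ)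
          (((Fintype.piFinset (fun _ : Fin h => A)).image
          (fun f : Fin h → ℤ => ∏ i, f i)).card : ℝ) ≤
          (N : ℝ) ^ ((1 / (Real.log (1 + c) + c * Real.log (1 + 1 / c)) + ε) * Real.log h)) :=
  Pool.Agent.Helper24.FR.power_range c hc ε hε

end Pool.Agent.Results.MP_120218_co.LogTradeoff
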